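import Mathlib

namespace Pool.Agent.Results.MP_9ff1c8_al.CentralOverGroup

/-- A loop on `Q`: multiplication with left and right division and a two-sided identity. -/
structure LoopStr (Q : Type*) where
  mul : Q → Q → Q
  ldiv : Q → Q → Q
  rdiv : Q → Q → Q
  one : Q
  mul_ldiv : ∀ a b, mul a (ldiv a b) = b
  ldiv_mul : ∀ a b, ldiv a (mul a b) = b
  rdiv_mul : ∀ a b, mul (rdiv b a) a = b
  mul_rdiv : ∀ a b, rdiv (mul b a) a = b
  one_mul : ∀ a, mul one a = a
  mul_one : ∀ a, mul a one = a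

namespace LoopStr

variable {Q : Type*} (L : LoopStr Q)

/-- The loop is commutative. -/
def Comm : Prop := ∀ x y : Q, L.mul x y = L.mul y x

/-- The product `x ∘ y = (x / a) (b \ y)` of the principal isotope of `L` given by `a`, `b`. -/
def iso (a b x y : Q) : Q := L.mul (L.rdiv x a) (L.ldiv b y)

/-- Every principal isotope with `b = 1` is flexible (part of being universally flexible). -/
def LeftUF : Prop := ∀ a x y : Q,
  L.iso a L.one x (L.iso a L.one y x) = L.iso a L.one (L.iso a L.one x y) x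

/-- `c` lies in the center of the loop. -/
def Central (c : Q) : Prop :=
  (∀ x, L.mul c x = L.mul x c) ∧
  (∀ x y, L.mul (L.mul c x) y = L.mul c (L.mul x y)) ∧
  (∀ x y, L.mul (L.mul x c) y = L.mul x (L.mul c y)) ∧
  (∀ x y, L.mul (L.mul x y) c = L.mul x (L.mul y c))

/-- `Q / Z(Q)` is associative: `(x y) z` and `x (y z)` always differ by a central factor. -/
def AssocModCenter : Prop := ∀ x y z : Q, ∃ c, L.Central c ∧
  L.mul (L.mul x y) z = L.mul (L.mul x (L.mul y z)) c

/-- The middle Bol identity `x ((y z) \ x) = (x / z) (y \ x)`. -/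
def MiddleBol : Prop := ∀ x y z : Q,
  L.mul x (L.ldiv (L.mul y z) x) = L.mul (L.rdiv x z) (L.ldiv y x)

variable {L}

theorem lcancel {a x y : Q} (h : L.mul a x = L.mul a y) : x = y := by
  have := congrArg (L.ldiv a) h
  rwa [L.ldiv_mul, L.ldiv_mul] at this

theorem rcancel {a x y : Q} (h : L.mul x a = L.mul y a) : x = y := by
  have := congrArg (fun t => L.rdiv t a) h
  simpa only [L.mul_rdiv] using this

/-- (A2) `p (z (p b)) = ((p (z b)) / b) (p b)` -/
theorem A2 (h : L.LeftUF) (p z b : Q) :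
    L.mul p (L.mul z (L.mul p b)) = L.mul (L.rdiv (L.mul p (L.mul z b)) b) (L.mul p b) := by
  have l1 : ∀ t, L.ldiv L.one t = t := fun t => by
    have := L.mul_ldiv L.one t; rwa [L.one_mul] at this
  have := h b (L.mul p b) (L.mul z b)
  simpa only [iso, l1, L.mul_rdiv] using this

end LoopStr

/-- A commutative loop `Q` all of whose isotopes `x ∘ y = (x / a) y` are flexible and for which
`Q / Z(Q)` is a group is a middle Bol loop. -/
theorem result {Q : Type*} (L : LoopStr Q) (hc : L.Comm) (h : L.LeftUF)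
    (hA : L.AssocModCenter) : L.MiddleBol := by
  intro x y z
  set u := L.ldiv (L.mul y z) x with hu
  have hx : L.mul u (L.mul y z) = x := by rw [hc, hu, L.mul_ldiv]
  -- `y (u z) = x c` with `c` central
  obtain ⟨c1, hc1, e1⟩ := hA u y z
  obtain ⟨c2, hc2, e2⟩ := hA y u z
  -- (u y) z = x c1, (y u) z = (y (u z)) c2
  rw [hx] at e1
  have e3 : L.mul (L.mul y (L.mul u z)) c2 = L.mul x c1 := by
    rw [← e2, ← e1, hc y u]
  have hA2 := LoopStr.A2 h u y z
  rw [hx] at hA2
  -- goal: x u = (x / z) (y \ x)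
  -- first: (y \ x) c1 = (u z) c2
  have e4 : L.mul (L.ldiv y x) c1 = L.mul (L.mul u z) c2 := by
    apply LoopStr.lcancel (a := y)
    rw [← hc1.2.2.2, L.mul_ldiv, ← e3, hc2.2.2.2]
  have e5 : L.mul (L.mul x u) c1 = L.mul (L.mul (L.rdiv x z) (L.ldiv y x)) c1 := by
    rw [hc1.2.2.2 (L.rdiv x z), e4, ← hc2.2.2.2, ← hA2, hc2.2.2.2, hc2.2.2.2, ← hc2.2.2.2 y, e3,
      ← hc1.2.2.2, hc x u]
  exact LoopStr.rcancel e5

end Pool.Agent.Results.MP_9ff1c8_al.CentralOverGroup
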